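import Mathlib
import Pool.Agent.W842.KF.Stm

set_option autoImplicit false

/-!
Three small graph lemmas.
-/

namespace Pool.Agent.W215.KF

open Finset Pool.Agent.W842.KF

theorem step {V : Type} [Fintype V] (H : SimpleGraph V) (hd : ∀ u, (nb H u).card ≤ 2) (v : V)
    (s : ℕ) : (pths H v (s + 2)).card ≤ (pths H v (s + 1)).card := by
  classical
  apply Finset.card_le_card_of_injOn (fun w => fun i : Fin (s + 2) => w i.castSucc)
  · intro w hw
    rw [mem_coe, mem_pths] at hw
    rw [mem_coe, mem_pths]
    obtain ⟨h0, hinj, hadj⟩ := hw
    refine ⟨h0, ?_, ?_⟩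
    · intro i j hij
      exact Fin.castSucc_injective _ (hinj hij)
    · intro i
      have := hadj i.castSucc
      rw [Fin.succ_castSucc] at this
      exact this
  · intro w hw w' hw' heq
    rw [mem_coe, mem_pths] at hw hw'
    obtain ⟨h0, hinj, hadj⟩ := hw
    obtain ⟨h0', hinj', hadj'⟩ := hw'
    have hinit : ∀ i : Fin (s + 2), w i.castSucc = w' i.castSucc := fun i => congrFun heq i
    have hlast : w (Fin.last (s + 2)) = w' (Fin.last (s + 2)) := by
      by_contra hne
      have e1 : H.Adj (w (Fin.last (s + 1)).castSucc) (w (Fin.last (s + 2))) :=
        hadj (Fin.last (s + 1))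
      have e2 : H.Adj (w (Fin.last (s + 1)).castSucc) (w' (Fin.last (s + 2))) := by
        rw [hinit]
        exact hadj' (Fin.last (s + 1))
      have e3 : H.Adj (w (Fin.last s).castSucc.castSucc) (w (Fin.last (s + 1)).castSucc) :=
        hadj (Fin.last s).castSucc
      have n1 : w (Fin.last s).castSucc.castSucc ≠ w (Fin.last (s + 2)) := by
        intro h
        have := hinj h
        have := congrArg Fin.val this
        simp at this
      have n2 : w (Fin.last s).castSucc.castSucc ≠ w' (Fin.last (s + 2)) := by
        rw [hinit]
        intro h
        have := hinj' h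
        have := congrArg Fin.val this
        simp at this
      have hsub : ({w (Fin.last s).castSucc.castSucc, w (Fin.last (s + 2)),
          w' (Fin.last (s + 2))} : Finset V) ⊆ nb H (w (Fin.last (s + 1)).castSucc) := by
        intro z hz
        rw [mem_nb]
        simp only [mem_insert, mem_singleton] at hz
        rcases hz with rfl | rfl | rfl
        · exact e3.symm
        · exact e1
        · exact e2
      have h3 : ({w (Fin.last s).castSucc.castSucc, w (Fin.last (s + 2)),
          w' (Fin.last (s + 2))} : Finset V).card = 3 := card_eq_three.2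
            ⟨_, _, _, n1, n2, hne, rfl⟩
      have h4 := card_le_card hsub
      have h5 := hd (w (Fin.last (s + 1)).castSucc)
      omega
    funext i
    exact Fin.lastCases hlast hinit i

theorem t_paths : S_PATHS := by
  classical
  intro V _ H hd v s
  induction s with
  | zero =>
    have : (pths H v 0).card ≤ 1 := by
      rw [card_le_one]
      intro w hw w' hw'
      rw [mem_pths] at hw hw'
      funext i
      fin_cases i
      exact hw.1.trans hw'.1.symm
    omega
  | succ s ih =>
    cases s with
    | zero =>
      refine le_trans ?_ (hd v)
      apply Finset.card_le_card_of_injOn (fun w => w 1)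
      · intro w hw
        rw [mem_coe, mem_pths] at hw
        rw [mem_coe, mem_nb]
        have := hw.2.2 0
        rw [← hw.1]
        exact this
      · intro w hw w' hw' heq
        rw [mem_coe, mem_pths] at hw hw'
        funext i
        fin_cases i
        · exact hw.1.trans hw'.1.symm
        · exact heq
    | succ s => exact (step H hd v s).trans ih

theorem t_cls : S_CLS := by
  classical
  intro V _ Γ c σ hc hσ P v
  refine le_trans ?_ (card_le_two (a := P) (b := σ P))
  apply Finset.card_le_card_of_injOn (fun u => c v u)
  · intro u hu
    rw [mem_coe, mem_nb] at hu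
    rw [mem_coe, mem_insert, mem_singleton]
    have h1 : min (c v u) (σ (c v u)) = P := hu.2.1
    rcases min_choice (c v u) (σ (c v u)) with h | h
    · left
      exact h.symm.trans h1
    · right
      rw [h] at h1
      show c v u = σ P
      rw [← h1, hσ]
  · intro u hu u' hu' heq
    rw [mem_coe, mem_nb] at hu hu'
    by_contra hne
    exact hc.2 v u u' hu.1 hu'.1 hne heq

theorem key_inv {σ : ℕ → ℕ} (hσ : ∀ x, σ (σ x) = x) (x : ℕ) : key σ (σ x) = key σ x := by
  unfold key
  rw [hσ, min_comm]

theorem t_kempe : S_KEMPE := by
  intro V Γ c σ b hc hσ hb hkey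
  refine ⟨fun u v => ?_, fun u v w huv huw hne heq => ?_⟩
  · simp only
    rw [hb u v, hc.1 u v]
  · simp only at heq
    have h1 := hc.2 u v w huv huw hne
    have h2 := hkey u v w huv huw
    rcases hv : b u v with _ | _ <;> rcases hw : b u w with _ | _ <;> rw [hv, hw] at heq
    · simp at heq
      exact h1 heq
    · simp at heq
      have h3 : key σ (c u v) = key σ (c u w) := by rw [heq, key_inv hσ]
      have := h2 h3
      rw [hv, hw] at this
      cases this
    · simp at heq
      have h3 : key σ (c u v) = key σ (c u w) := by rw [← heq, key_inv hσ]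
      have := h2 h3
      rw [hv, hw] at this
      cases this
    · simp at heq
      apply h1
      rw [← hσ (c u v), heq, hσ]

end Pool.Agent.W215.KF
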