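import Pool.Agent.W798.KF.Stm

/-!
# k-fold sums and products of sets of reals: the recursive sets are the sets of
sums and products of families
-/

set_option autoImplicit false

open Finset
open scoped Pointwise

namespace Pool.Agent.W215.KF.IM

open Pool.Agent.W798.KF

/-- The set of sums of `j + 1` elements, one step. -/
theorem sum_step {R : Type} [CommRing R] [DecidableEq R] (A : Finset R) (j : ℕ) :
    ((Fintype.piFinset (fun _ : Fin (j + 1 + 1) => A)).image
      (fun g : Fin (j + 1 + 1) → R => ∑ i, g i)) =
    A + ((Fintype.piFinset (fun _ : Fin (j + 1) => A)).image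
      (fun g : Fin (j + 1) → R => ∑ i, g i)) := by
  ext x
  simp only [Finset.mem_image, Fintype.mem_piFinset, Finset.mem_add]
  constructor
  · rintro ⟨g, hg, rfl⟩
    exact ⟨g 0, hg 0, ∑ i : Fin (j + 1), g i.succ, ⟨fun i => g i.succ, fun i => hg _, rfl⟩,
      (Fin.sum_univ_succ g).symm⟩
  · rintro ⟨a, ha, y, ⟨g, hg, rfl⟩, rfl⟩
    refine ⟨Fin.cons a g, ?_, ?_⟩
    · intro i
      refine Fin.cases ?_ ?_ i
      · simpa using ha
      · intro i
        simpa using hg i
    · rw [Fin.sum_univ_succ]
      simp

/-- The set of products of `j + 1` elements, one step. -/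
theorem prod_step {R : Type} [CommRing R] [DecidableEq R] (A : Finset R) (j : ℕ) :
    ((Fintype.piFinset (fun _ : Fin (j + 1 + 1) => A)).image
      (fun g : Fin (j + 1 + 1) → R => ∏ i, g i)) =
    A * ((Fintype.piFinset (fun _ : Fin (j + 1) => A)).image
      (fun g : Fin (j + 1) → R => ∏ i, g i)) := by
  ext x
  simp only [Finset.mem_image, Fintype.mem_piFinset, Finset.mem_mul]
  constructor
  · rintro ⟨g, hg, rfl⟩
    exact ⟨g 0, hg 0, ∏ i : Fin (j + 1), g i.succ, ⟨fun i => g i.succ, fun i => hg _, rfl⟩,
      (Fin.prod_univ_succ g).symm⟩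
  · rintro ⟨a, ha, y, ⟨g, hg, rfl⟩, rfl⟩
    refine ⟨Fin.cons a g, ?_, ?_⟩
    · intro i
      refine Fin.cases ?_ ?_ i
      · simpa using ha
      · intro i
        simpa using hg i
    · rw [Fin.prod_univ_succ]
      simp

/-- The set of sums of one element. -/
theorem sum_zero {R : Type} [CommRing R] [DecidableEq R] (A : Finset R) :
    ((Fintype.piFinset (fun _ : Fin (0 + 1) => A)).image
      (fun g : Fin (0 + 1) → R => ∑ i, g i)) = A := by
  ext x
  simp only [Finset.mem_image, Fintype.mem_piFinset]
  constructor
  · rintro ⟨g, hg, rfl⟩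
    simpa using hg 0
  · intro hx
    exact ⟨fun _ => x, fun _ => hx, by simp⟩

/-- The set of products of one element. -/
theorem prod_zero {R : Type} [CommRing R] [DecidableEq R] (A : Finset R) :
    ((Fintype.piFinset (fun _ : Fin (0 + 1) => A)).image
      (fun g : Fin (0 + 1) → R => ∏ i, g i)) = A := by
  ext x
  simp only [Finset.mem_image, Fintype.mem_piFinset]
  constructor
  · rintro ⟨g, hg, rfl⟩
    simpa using hg 0
  · intro hx
    exact ⟨fun _ => x, fun _ => hx, by simp⟩

theorem sm_image {R : Type} [CommRing R] [DecidableEq R] (f : R →+* ℝ) (A : Finset R) (j : ℕ) :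
    sm (A.image f) j = ((Fintype.piFinset (fun _ : Fin (j + 1) => A)).image
      (fun g : Fin (j + 1) → R => ∑ i, g i)).image f := by
  induction j with
  | zero => rw [sum_zero]; rfl
  | succ j ih =>
    rw [sum_step, Finset.image_add, ← ih]
    rfl

theorem pr_image {R : Type} [CommRing R] [DecidableEq R] (f : R →+* ℝ) (A : Finset R) (j : ℕ) :
    pr (A.image f) j = ((Fintype.piFinset (fun _ : Fin (j + 1) => A)).image
      (fun g : Fin (j + 1) → R => ∏ i, g i)).image f := by
  induction j with
  | zero => rw [prod_zero]; rfl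
  | succ j ih =>
    rw [prod_step, Finset.image_mul, ← ih]
    rfl

/-- IM: the recursive sets are the sets of sums and products of families. -/
theorem t : S_IM := by
  intro R _ _ f hf A j
  constructor
  · rw [sm_image, Finset.card_image_of_injective _ hf]
  · rw [pr_image, Finset.card_image_of_injective _ hf]

end Pool.Agent.W215.KF.IM
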